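import Mathlib

namespace Pool.Agent.H.MP_f310b7_an

open Finset

def ones : ℕ := (2 ^ 1728 - 1) / (2 ^ 64 - 1)

def top : ℕ := 2 ^ 63 * ((2 ^ 1600 - 1) / (2 ^ 64 - 1))

lemma ones_eq : ones = ∑ i ∈ range 26, (2 ^ 64) ^ i + (2 ^ 64) ^ 26 := by decide +kernel

lemma top_bit : ∀ i < 25, top.testBit (64 * i + 63) = true := by decide +kernel

def R (x : ℕ → ℝ) (E Z : ℕ) (t : ℝ) : Prop :=
  ∃ w : ℕ → ℕ, E = ∑ i ∈ range 26, w i * (2 ^ 64) ^ i + Z * (2 ^ 64) ^ 26 ∧ (∀ i, w i ≤ 2 * Z) ∧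
    t = ∑ i ∈ range 26, ((w i : ℝ) - Z) * x i

def RR (x : ℕ → ℝ) (E : ℕ) (t : ℝ) : Prop := ∃ Z, R x E Z t

variable {x : ℕ → ℝ}

lemma RR.zero : RR x 0 0 := ⟨0, fun _ => 0, by simp, by simp, by simp⟩

lemma RR.add {E F : ℕ} {t s : ℝ} (h : RR x E t) (k : RR x F s) : RR x (E + F) (t + s) := by
  obtain ⟨Z, w, h1, h2, h3⟩ := h
  obtain ⟨Y, v, k1, k2, k3⟩ := k
  refine ⟨Z + Y, fun i => w i + v i, ?_, fun i => ?_, ?_⟩
  · rw [h1, k1]; simp only [add_mul, sum_add_distrib]; ring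
  · have := h2 i; have := k2 i; beta_reduce; omega
  · rw [h3, k3, ← sum_add_distrib]; refine sum_congr rfl fun i _ => ?_; push_cast; ring

lemma RR.smul {E : ℕ} {t : ℝ} (y : ℕ) (h : RR x E t) : RR x (y * E) (y * t) := by
  obtain ⟨Z, w, h1, h2, h3⟩ := h
  refine ⟨y * Z, fun i => y * w i, ?_, fun i => ?_, ?_⟩
  · rw [h1, mul_add, mul_sum]; simp only [mul_assoc]
  · have := Nat.mul_le_mul_left y (h2 i); linarith
  · rw [h3, mul_sum]; refine sum_congr rfl fun i _ => ?_; push_cast; ring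

lemma sum_lt (b : ℕ) (w : ℕ → ℕ) (n : ℕ) (h : ∀ i, w i < b) : ∑ i ∈ range n, w i * b ^ i < b ^ n := by
  induction n with
  | zero => simp
  | succ n ih =>
    rw [sum_range_succ, pow_succ]
    have h1 : (w n + 1) * b ^ n ≤ b * b ^ n := Nat.mul_le_mul_right _ (h n)
    nlinarith

lemma R.level {E Z : ℕ} {t : ℝ} (h : R x E Z t) (hs : E / 2 ^ 1664 < 2 ^ 62) :
    E / 2 ^ 1664 = Z := by
  obtain ⟨w, h1, h2, -⟩ := h
  have e : (2 ^ 64 : ℕ) ^ 26 = 2 ^ 1664 := by rw [← pow_mul]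
  rw [e] at h1
  have hp : 0 < (2 : ℕ) ^ 1664 := by positivity
  have h3 : E / 2 ^ 1664 = (∑ i ∈ range 26, w i * (2 ^ 64) ^ i) / 2 ^ 1664 + Z := by
    rw [h1, Nat.add_mul_div_right _ _ hp]
  have h4 : Z < 2 ^ 62 := lt_of_le_of_lt (by rw [h3]; exact Nat.le_add_left _ _) hs
  have h5 := sum_lt (2 ^ 64) w 26 (fun i => by have := h2 i; omega)
  rw [e] at h5
  rw [h3, Nat.div_eq_of_lt h5, zero_add]

lemma R.neg {E Z : ℕ} {t : ℝ} (h : R x E Z t) : R x (2 * Z * ones - E) Z (-t) := by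
  obtain ⟨w, h1, h2, h3⟩ := h
  refine ⟨fun i => 2 * Z - w i, ?_, fun i => Nat.sub_le _ _, ?_⟩
  · apply Nat.sub_eq_of_eq_add
    rw [ones_eq, h1, mul_add, mul_sum]
    have : ∑ i ∈ range 26, 2 * Z * (2 ^ 64) ^ i = ∑ i ∈ range 26, (2 * Z - w i) * (2 ^ 64) ^ i +
        ∑ i ∈ range 26, w i * (2 ^ 64) ^ i := by
      rw [← sum_add_distrib]; refine sum_congr rfl fun i _ => ?_
      rw [← add_mul, Nat.sub_add_cancel (h2 i)]
    rw [this]; generalize ((2 : ℕ) ^ 64) ^ 26 = q; ring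
  · rw [h3, ← sum_neg_distrib]; refine sum_congr rfl fun i _ => ?_
    rw [Nat.cast_sub (h2 i)]; push_cast; ring

noncomputable def ng (e : ℕ) : ℕ := Nat.sub (Nat.mul (Nat.mul 2 (Nat.shiftRight e 1664)) ones) e

lemma RR.neg {E : ℕ} {t : ℝ} (h : RR x E t) (hs : E < 2 ^ 1726) : RR x (ng E) (-t) := by
  obtain ⟨Z, h⟩ := h
  have h1 : E / 2 ^ 1664 < 2 ^ 62 := by
    rw [Nat.div_lt_iff_lt_mul (by positivity), ← pow_add]; exact hs
  have h2 := h.level h1
  have : ng E = 2 * Z * ones - E := by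
    rw [← h2, ← Nat.shiftRight_eq_div_pow]; rfl
  exact ⟨Z, this ▸ h.neg⟩

lemma R.basis (k : ℕ) (hk : k < 26) : R x (ones + (2 ^ 64) ^ k) 1 (x k) := by
  refine ⟨fun i => 1 + if i = k then 1 else 0, ?_, fun i => ?_, ?_⟩
  · rw [ones_eq]; simp only [add_mul, sum_add_distrib, one_mul, ite_mul, zero_mul]
    rw [sum_ite_eq' (range 26) k]; simp only [mem_range, hk, if_true]
    generalize ((2 : ℕ) ^ 64) ^ 26 = q; ring
  · beta_reduce; split_ifs <;> omega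
  · simp [hk]

noncomputable def tm (s : Bool) (k : ℕ) : ℕ :=
  Bool.rec (Nat.sub ones (Nat.shiftLeft 1 (Nat.mul 64 k)))
    (Nat.add ones (Nat.shiftLeft 1 (Nat.mul 64 k))) s

noncomputable def sg (s : Bool) : ℝ := if s then 1 else -1

lemma tm_val (s : Bool) (k : ℕ) (hk : k < 26) : RR x (tm s k) (sg s * x k) := by
  have e : Nat.shiftLeft 1 (Nat.mul 64 k) = (2 ^ 64) ^ k := by
    show 1 <<< (64 * k) = _
    rw [Nat.shiftLeft_eq, one_mul, pow_mul]
  cases s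
  · have h := (R.basis (x := x) k hk).neg
    have e2 : 2 * 1 * ones - (ones + (2 ^ 64) ^ k) = ones - (2 ^ 64) ^ k := by omega
    rw [e2] at h
    refine ⟨1, ?_⟩
    show R x (ones - Nat.shiftLeft 1 (Nat.mul 64 k)) 1 _
    rw [e]; simpa [sg] using h
  · refine ⟨1, ?_⟩
    show R x (ones + Nat.shiftLeft 1 (Nat.mul 64 k)) 1 _
    rw [e]; simpa [sg] using R.basis (x := x) k hk

lemma dig_zero (b : ℤ) (v : ℕ → ℤ) (n : ℕ) (h : ∀ i < n, |v i| < b) (w : ℤ)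
    (hz : ∑ i ∈ range n, v i * b ^ i + w * b ^ n = 0) : (∀ i < n, v i = 0) ∧ w = 0 := by
  induction n generalizing w with
  | zero => simpa using hz
  | succ n ih =>
    have h1 := ih (fun i hi => h i (by omega)) (v n + w * b) (by
      rw [sum_range_succ] at hz; rw [← hz]; ring)
    have h2 := h n (by omega)
    have hb : 0 < b := lt_of_le_of_lt (abs_nonneg _) h2
    have h3 : v n = -(w * b) := by linarith [h1.2]
    have hw : w = 0 := by
      by_contra hne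
      have : 1 ≤ |w| := Int.one_le_abs hne
      rw [h3, abs_neg, abs_mul, abs_of_pos hb] at h2
      nlinarith
    refine ⟨fun i hi => ?_, hw⟩
    rcases Nat.lt_succ_iff_lt_or_eq.1 hi with h4 | h4
    · exact h1.1 i h4
    · rw [h4, h3, hw]; simp

lemma dig_exp (b C n : ℕ) : C = ∑ i ∈ range n, (C / b ^ i % b) * b ^ i + C / b ^ n * b ^ n := by
  induction n with
  | zero => simp
  | succ n ih =>
    rw [sum_range_succ, pow_succ, ← Nat.div_div_eq_div_mul]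
    have := Nat.mod_add_div (C / b ^ n) b
    calc C = _ := ih
      _ = ∑ i ∈ range n, (C / b ^ i % b) * b ^ i +
          (C / b ^ n % b + b * (C / b ^ n / b)) * b ^ n := by rw [this]
      _ = _ := by ring

lemma dig_aux (b Z q : ℕ) (w c : ℕ → ℕ) (h : ∀ i < 25, |(w i : ℤ) + c i - Z| < (b : ℕ))
    (h5 : ∑ i ∈ range 26, w i * b ^ i + Z * b ^ 26 + (∑ i ∈ range 25, c i * b ^ i + q * b ^ 25) =
      Z * (∑ i ∈ range 26, b ^ i + b ^ 26)) :
    (∀ i < 25, (w i : ℤ) + c i - Z = 0) ∧ (w 25 : ℤ) + q - Z = 0 := by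
  refine dig_zero b (fun i => (w i : ℤ) + c i - Z) 25 h _ ?_
  have h6 := congrArg (fun n : ℕ => (n : ℤ)) h5
  rw [sum_range_succ, sum_range_succ (n := 25)] at h6
  push_cast at h6
  simp only [sub_mul, add_mul, sum_sub_distrib, sum_add_distrib, ← mul_sum]
  linear_combination h6

noncomputable def frc (n : ℕ) (f : ℕ → Bool) : Bool := Nat.rec (f 0) (fun k _ => f (Nat.succ k)) n

lemma frc_eq (n : ℕ) (f : ℕ → Bool) : frc n f = f n := by cases n <;> rfl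

noncomputable def an (a b : Bool) : Bool := Bool.rec false b a

lemma an_iff (a b : Bool) : an a b = true ↔ a = true ∧ b = true := by
  cases a <;> simp [an]

noncomputable def fin (E0 : ℕ) : Bool :=
  frc E0 fun E => frc (Nat.mul (Nat.shiftRight E 1664) ones) fun D =>
    an (Nat.ble (Nat.shiftRight E 1664) 4611686018427387903)
      (an (Nat.ble (Nat.add E (Nat.pow 2 1600)) D) (Nat.beq (Nat.land (Nat.sub D E) top) 0))

lemma fin_neg {E : ℕ} {t : ℝ} (hx : ∀ i, 0 ≤ x i) (h25 : 0 < x 25) (h : RR x E t)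
    (hf : fin E = true) : t < 0 := by
  obtain ⟨Z, h⟩ := h
  rw [fin, frc_eq, frc_eq, an_iff, an_iff, Nat.ble_eq, Nat.ble_eq, Nat.beq_eq] at hf
  obtain ⟨f1, f2, f3⟩ := hf
  have e0 : Nat.shiftRight E 1664 = E / 2 ^ 1664 := Nat.shiftRight_eq_div_pow _ _
  rw [e0] at f1 f2 f3
  have hl := h.level (by omega)
  rw [hl] at f1 f2 f3
  have f2 : E + 2 ^ 1600 ≤ Z * ones := f2
  have f3 : (Z * ones - E) &&& top = 0 := f3
  obtain ⟨w, h1, h2, h3⟩ := h
  obtain ⟨C, hC⟩ : ∃ C, Z * ones - E = C := ⟨_, rfl⟩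
  rw [hC] at f3
  have e25 : (2 ^ 64 : ℕ) ^ 25 = 2 ^ 1600 := by rw [← pow_mul]
  have hC1 : (2 ^ 64) ^ 25 ≤ C := by rw [e25]; omega
  have hC2 : E + C = Z * ones := by omega
  have hd : ∀ i < 25, C / (2 ^ 64) ^ i % 2 ^ 64 < 2 ^ 63 := by
    intro i hi
    have b1 : C.testBit (64 * i + 63) = false := by
      have := congrArg (fun n => Nat.testBit n (64 * i + 63)) f3
      simpa [Nat.testBit_and, top_bit i hi] using this
    apply Nat.lt_pow_two_of_testBit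
    intro j hj
    rw [← pow_mul, Nat.testBit_mod_two_pow, Nat.testBit_div_two_pow]
    rcases Nat.eq_or_lt_of_le hj with h4 | h4
    · rw [← h4, add_comm, b1]; simp
    · have : ¬ j < 64 := by omega
      simp [this]
  have hq : 1 ≤ C / (2 ^ 64) ^ 25 := (Nat.one_le_div_iff (by positivity)).2 hC1
  have hexp := dig_exp (2 ^ 64) C 25
  obtain ⟨q, hqq⟩ : ∃ q, C / (2 ^ 64) ^ 25 = q := ⟨_, rfl⟩
  obtain ⟨c, hc⟩ : ∃ c : ℕ → ℕ, ∀ i, C / (2 ^ 64) ^ i % 2 ^ 64 = c i := ⟨_, fun _ => rfl⟩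
  simp only [hc, hqq] at hexp hd hq
  have hz := dig_aux (2 ^ 64) Z q w c (fun i hi => by
    have := hd i hi; have := h2 i; rw [abs_lt]; constructor <;> omega) (by
    rw [← h1, ← hexp, ← ones_eq]; exact hC2)
  rw [h3, sum_range_succ]
  have s1 : ∑ i ∈ range 25, ((w i : ℝ) - Z) * x i ≤ 0 := by
    refine sum_nonpos fun i hi => mul_nonpos_of_nonpos_of_nonneg ?_ (hx i)
    have := hz.1 i (mem_range.1 hi)
    have h6 : (w i : ℤ) ≤ Z := by omega
    have : (w i : ℝ) ≤ Z := by exact_mod_cast h6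
    linarith
  have s2 : ((w 25 : ℝ) - Z) * x 25 < 0 := by
    refine mul_neg_of_neg_of_pos ?_ h25
    have := hz.2
    have h6 : (w 25 : ℤ) < Z := by omega
    have : (w 25 : ℝ) < Z := by exact_mod_cast h6
    linarith
  linarith

end Pool.Agent.H.MP_f310b7_an
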