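import Pool.Agent.H.MP_f310b7_an.A

namespace Pool.Agent.H.MP_f310b7_an

open Finset

structure Sol (l : Fin 4 → Fin 5 → ℝ) (b : Fin 5 → ℝ) : Prop where
  col : ∀ i, ∑ j, l i j = 0
  tot : ∑ j, b j = 1
  c0 : ∀ (u : Fin 5 → ℝ) k, u k - ∑ j, u j * b j ≤ ∑ i, |∑ j, u j * l i j|
  c1 : ∀ (t : Fin 4 → ℝ) (r : ℝ) k, |t k| ≤ ∑ j, |∑ i, t i * l i j + r * b j|
  vx : ∀ s : Fin 4 → Bool, ∑ j, |b j + ∑ i, sg (s i) * l i j| ≤ 137 / 61

noncomputable def bt (c k : ℕ) : Bool := Nat.beq (Nat.land (Nat.shiftRight c k) 1) 1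

noncomputable def dg (c k m : ℕ) : ℕ := Nat.mod (Nat.shiftRight c k) m

def Pat (g : ℕ) (l : Fin 4 → Fin 5 → ℝ) : Prop :=
  ∀ (i : Fin 4) (j : Fin 5), 0 ≤ sg (bt g (5 * i + j)) * l i j

noncomputable def xv (l : Fin 4 → Fin 5 → ℝ) (b : Fin 5 → ℝ) (k : ℕ) : ℝ :=
  if h : k < 20 then |l ⟨k / 5, by omega⟩ ⟨k % 5, by omega⟩|
  else if h2 : k < 25 then b ⟨k - 20, by omega⟩ else 1 / 61

variable {l : Fin 4 → Fin 5 → ℝ} {b : Fin 5 → ℝ} {g : ℕ} {x : ℕ → ℝ}

lemma xv_l (i : Fin 4) (j : Fin 5) : xv l b (5 * i + j) = |l i j| := by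
  have h : 5 * (i : ℕ) + j < 20 := by omega
  simp only [xv, h, dif_pos]
  congr 2 <;> (apply Fin.ext; simp only []; omega)

lemma xv_b (j : Fin 5) : xv l b (20 + j) = b j := by
  have h : ¬ (20 + (j : ℕ) < 20) := by omega
  have h2 : 20 + (j : ℕ) < 25 := by omega
  simp only [xv, h, h2, dif_pos, dif_neg, not_false_eq_true]
  congr 1; apply Fin.ext; simp

lemma xv_k : xv l b 25 = 1 / 61 := by simp [xv]

lemma Sol.J (h : Sol l b) (s : Fin 4 → Bool) (J : Fin 5 → Bool) :
    0 ≤ 38 / 61 + ∑ j, if J j then b j + ∑ i, sg (s i) * l i j else 0 := by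
  have h1 := h.vx s
  have h2 : ∑ j, (b j + ∑ i, sg (s i) * l i j) = 1 := by
    rw [sum_add_distrib, h.tot, sum_comm]; simp [← mul_sum, h.col]
  have h3 : ∑ j, ((b j + ∑ i, sg (s i) * l i j) + -2 *
      (if J j then b j + ∑ i, sg (s i) * l i j else 0)) ≤ ∑ j, |b j + ∑ i, sg (s i) * l i j| := by
    refine sum_le_sum fun j _ => ?_
    generalize b j + ∑ i, sg (s i) * l i j = y
    have := le_abs_self y; have := neg_abs_le y
    split_ifs <;> linarith
  rw [sum_add_distrib, h2, ← mul_sum] at h3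
  linarith

lemma Sol.row (h : Sol l b) (j : Fin 5) : 1 - b j ≤ ∑ i, |l i j| := by
  simpa [Pi.single_apply] using h.c0 (Pi.single j 1) j

lemma Sol.cl (h : Sol l b) (i : Fin 4) : 1 ≤ ∑ j, |l i j| := by
  simpa [Pi.single_apply] using h.c1 (Pi.single i 1) 0 i

lemma Sol.pos (h : Sol l b) (j : Fin 5) : 0 ≤ b j := by
  have h1 := h.row j
  have h2 := h.J (fun i => decide (l i j ≤ 0)) (fun k => decide (k = j))
  simp only [decide_eq_true_eq, sum_ite_eq', mem_univ, if_true] at h2
  have h3 : ∑ i, sg (decide (l i j ≤ 0)) * l i j = -∑ i, |l i j| := by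
    rw [← sum_neg_distrib]; refine sum_congr rfl fun i _ => ?_
    by_cases h4 : l i j ≤ 0
    · simp [sg, h4, abs_of_nonpos h4]
    · simp [sg, h4, abs_of_pos (not_le.1 h4)]
  linarith

lemma Sol.xv_nonneg (h : Sol l b) (k : ℕ) : 0 ≤ xv l b k := by
  unfold xv; split_ifs
  · exact abs_nonneg _
  · exact h.pos _
  · norm_num

lemma RR.cast {E : ℕ} {t s : ℝ} (h : RR x E t) (e : s = t) : RR x E s := e ▸ h

noncomputable def lt (g : ℕ) (s : Bool) (i j : ℕ) : ℕ :=
  tm (Bool.rec (Bool.rec true false s) s (bt g (Nat.add (Nat.mul 5 i) j))) (Nat.add (Nat.mul 5 i) j)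

lemma lt_val (hp : Pat g l) (s : Bool) (i : Fin 4) (j : Fin 5) :
    RR (xv l b) (lt g s i j) (sg s * l i j) := by
  have h := tm_val (x := xv l b) (Bool.rec (Bool.rec true false s) s (bt g (5 * i + j))) (5 * i + j)
    (by omega)
  have h2 := hp i j
  rw [xv_l] at h
  refine RR.cast h ?_
  generalize bt g (5 * i + j) = q at h2 ⊢
  cases q <;> cases s <;> simp [sg] at h2 ⊢ <;> simp [abs_of_nonneg, abs_of_nonpos, h2]

lemma tb_val (s : Bool) (j : Fin 5) : RR (xv l b) (tm s (20 + j)) (sg s * b j) := by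
  have h := tm_val (x := xv l b) s (20 + j) (by omega)
  rwa [xv_b] at h

lemma tp_val (s : Bool) (i : Fin 4) (j : Fin 5) : RR (xv l b) (tm s (5 * i + j)) (sg s * |l i j|) := by
  have h := tm_val (x := xv l b) s (5 * i + j) (by omega)
  rwa [xv_l] at h

lemma tk_val (s : Bool) : RR (xv l b) (tm s 25) (sg s * (1 / 61)) := by
  have h := tm_val (x := xv l b) s 25 (by omega)
  rwa [xv_k] at h

attribute [local irreducible] tm lt ng ones

def V (x : ℕ → ℝ) (e : ℕ) : Prop := ∃ t, 0 ≤ t ∧ RR x e t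

lemma V.zero : V x 0 := ⟨0, le_rfl, RR.zero⟩

lemma V.add {e f : ℕ} (h : V x e) (k : V x f) : V x (Nat.add e f) := by
  obtain ⟨t, h1, h2⟩ := h
  obtain ⟨s, k1, k2⟩ := k
  exact ⟨_, add_nonneg h1 k1, h2.add k2⟩

lemma V.smul {e : ℕ} (y : ℕ) (h : V x e) : V x (Nat.mul y e) := by
  obtain ⟨t, h1, h2⟩ := h
  exact ⟨_, mul_nonneg (Nat.cast_nonneg y) h1, h2.smul y⟩

noncomputable def drp (n : ℕ) (cs : List ℕ) : List ℕ :=
  Nat.rec cs (fun _ ih => List.rec [] (fun _ tl _ => tl) ih) n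

lemma drp_V {cs : List ℕ} (h : ∀ e ∈ cs, V x e) (n : ℕ) : ∀ e ∈ drp n cs, V x e := by
  induction n with
  | zero => exact h
  | succ n ih =>
    show ∀ e ∈ (List.rec [] (fun _ tl _ => tl) (drp n cs) : List ℕ), V x e
    generalize drp n cs = r at ih ⊢
    cases r with
    | nil => simp
    | cons a tl => exact fun e he => ih e (List.mem_cons_of_mem _ he)

noncomputable def go (c st M n : ℕ) : List ℕ → ℕ :=
  Nat.rec (fun _ => 0) (fun k ih cs => List.rec 0 (fun e tl _ =>
    Nat.add (Nat.mul (dg (Nat.shiftRight c (Nat.add 12 (Nat.mul k st))) 8 M) e) (ih tl))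
    (drp (Nat.mod (Nat.shiftRight c (Nat.add 12 (Nat.mul k st))) 256) cs)) n

lemma go_V (c st M n : ℕ) : ∀ cs : List ℕ, (∀ e ∈ cs, V x e) → V x (go c st M n cs) := by
  induction n with
  | zero => exact fun _ _ => V.zero
  | succ n ih =>
    intro cs h
    have h1 := drp_V h (Nat.mod (Nat.shiftRight c (Nat.add 12 (Nat.mul n st))) 256)
    show V x (List.rec 0 (fun e tl _ =>
      Nat.add (Nat.mul (dg (Nat.shiftRight c (Nat.add 12 (Nat.mul n st))) 8 M) e) (go c st M n tl))
      (drp (Nat.mod (Nat.shiftRight c (Nat.add 12 (Nat.mul n st))) 256) cs))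
    generalize drp (Nat.mod (Nat.shiftRight c (Nat.add 12 (Nat.mul n st))) 256) cs = r at h1 ⊢
    cases r with
    | nil => exact V.zero
    | cons a tl =>
      exact ((h1 a List.mem_cons_self).smul _).add
        (ih tl fun e he => h1 e (List.mem_cons_of_mem _ he))

inductive P (x : ℕ → ℝ) : List ℕ → ℝ → Prop
  | nil : P x [] 0
  | cons {F : ℕ} {t s : ℝ} {r : List ℕ} : RR x F t → P x r s → P x (F :: r) (|t| + s)

noncomputable def ins (a : ℕ) (r : List ℕ) : ℕ → List ℕ :=
  List.rec (fun _ => [a]) (fun e tl ih q => Nat.rec (a :: e :: tl) (fun q' _ => e :: ih q') q) r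

lemma P.ins {a : ℕ} {t s : ℝ} {r : List ℕ} (ha : RR x a t) (h : P x r s) (q : ℕ) :
    P x (ins a r q) (|t| + s) := by
  induction h generalizing q with
  | nil => exact P.cons ha P.nil
  | cons h1 h2 ih =>
    cases q with
    | zero => exact P.cons ha (P.cons h1 h2)
    | succ q =>
      have := P.cons h1 (ih q)
      rw [add_left_comm] at this
      exact this

noncomputable def mg (c j : ℕ) : ℕ := dg c (Nat.add 1 (Nat.mul 5 j)) 32

noncomputable def f0 (g c i : ℕ) : ℕ :=
  Nat.add (Nat.add (Nat.add (Nat.add (Nat.mul (mg c 0) (lt g true i 0)) (Nat.mul (mg c 1) (lt g true i 1)))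
    (Nat.mul (mg c 2) (lt g true i 2))) (Nat.mul (mg c 3) (lt g true i 3)))
    (Nat.mul (mg c 4) (lt g true i 4))

noncomputable def a0 (c : ℕ) : ℕ :=
  Nat.add (Nat.add (Nat.add (Nat.add (Nat.add (Nat.mul (mg c 0) (tm true 20))
    (Nat.mul (mg c 1) (tm true 21))) (Nat.mul (mg c 2) (tm true 22))) (Nat.mul (mg c 3) (tm true 23)))
    (Nat.mul (mg c 4) (tm true 24))) (Nat.mul (Nat.mul 61 (mg c (dg c 43 5))) (tm false 25))

noncomputable def f1 (g c j : ℕ) : ℕ :=
  Nat.add (Nat.add (Nat.add (Nat.add (Nat.mul (mg c 0) (lt g (bt c 26) 0 j))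
    (Nat.mul (mg c 1) (lt g (bt c 27) 1 j))) (Nat.mul (mg c 2) (lt g (bt c 28) 2 j)))
    (Nat.mul (mg c 3) (lt g (bt c 29) 3 j))) (Nat.mul (mg c 4) (tm (bt c 30) (Nat.add 20 j)))

noncomputable def a1 (c : ℕ) : ℕ := Nat.mul (Nat.mul 61 (mg c (dg c 43 4))) (tm false 25)

lemma f0_val (hp : Pat g l) (c : ℕ) (i : Fin 4) :
    RR (xv l b) (f0 g c i) (∑ j : Fin 5, (mg c j : ℝ) * l i j) := by
  have h := (((((lt_val (b := b) hp true i 0).smul (mg c 0)).add
    ((lt_val hp true i 1).smul (mg c 1))).add ((lt_val hp true i 2).smul (mg c 2))).add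
    ((lt_val hp true i 3).smul (mg c 3))).add ((lt_val hp true i 4).smul (mg c 4))
  refine RR.cast h ?_
  simp [Fin.sum_univ_five, sg]

lemma f1_val (hp : Pat g l) (c : ℕ) (j : Fin 5) :
    RR (xv l b) (f1 g c j) (∑ i : Fin 4, (sg (bt c (26 + i)) * mg c i) * l i j +
      (sg (bt c 30) * mg c 4) * b j) := by
  have h := (((((lt_val (b := b) hp (bt c 26) 0 j).smul (mg c 0)).add
    ((lt_val hp (bt c 27) 1 j).smul (mg c 1))).add ((lt_val hp (bt c 28) 2 j).smul (mg c 2))).add
    ((lt_val hp (bt c 29) 3 j).smul (mg c 3))).add ((tb_val (bt c 30) j).smul (mg c 4))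
  refine RR.cast h ?_
  simp [Fin.sum_univ_four]; ring

lemma a0_val (c : ℕ) :
    RR (xv l b) (a0 c) (∑ j : Fin 5, (mg c j : ℝ) * b j - mg c (dg c 43 5)) := by
  have h := ((((((tb_val (l := l) (b := b) true 0).smul (mg c 0)).add
    ((tb_val true 1).smul (mg c 1))).add ((tb_val true 2).smul (mg c 2))).add
    ((tb_val true 3).smul (mg c 3))).add ((tb_val true 4).smul (mg c 4))).add
    ((tk_val false).smul (61 * mg c (dg c 43 5)))
  refine RR.cast h ?_
  simp [Fin.sum_univ_five, sg]; ring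

lemma a1_val (c : ℕ) : RR (xv l b) (a1 c) (-(mg c (dg c 43 4) : ℝ)) := by
  have h := (tk_val (l := l) (b := b) false).smul (61 * mg c (dg c 43 4))
  refine RR.cast h ?_
  simp [sg]; ring

inductive Tr
  | leaf (c : ℕ)
  | split (l r : Tr)
  | cut (c : ℕ) (t : Tr)
  | skip

noncomputable def psh (F a : ℕ) (rest cs : List ℕ) : List ℕ :=
  List.rec (a :: F :: cs) (fun _ _ _ => F :: cs) rest

noncomputable def run (g : ℕ) (t : Tr) : List ℕ → List ℕ → ℕ → Bool :=
  Tr.rec (motive := fun _ => List ℕ → List ℕ → ℕ → Bool)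
    (fun c cs _ _ => frc (Nat.add (dg c 6 64) 8) fun st => frc (Nat.pow 2 (dg c 6 64)) fun M =>
      fin (go c st M (Nat.mod c 64) cs))
    (fun _ _ il ir cs pend acc => List.rec false (fun F rest _ =>
      an (Nat.ble (Nat.succ F) (Nat.pow 2 1726)) (frc (ng F) fun N => frc (Nat.add acc F) fun p =>
        frc (Nat.add acc N) fun q =>
          an (il (psh F p rest cs) rest p) (ir (psh N q rest cs) rest q))) pend)
    (fun c _ it cs _ _ => Bool.rec
      (frc (f0 g c 0) fun F0 => frc (f0 g c 1) fun F1 => frc (f0 g c 2) fun F2 =>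
        frc (f0 g c 3) fun F3 => frc (a0 c) fun a =>
          it cs (ins F0 (ins F1 (ins F2 [F3] (dg c 37 8)) (dg c 34 8)) (dg c 31 8)) a)
      (frc (f1 g c 0) fun F0 => frc (f1 g c 1) fun F1 => frc (f1 g c 2) fun F2 =>
        frc (f1 g c 3) fun F3 => frc (f1 g c 4) fun F4 => frc (a1 c) fun a =>
          it cs (ins F0 (ins F1 (ins F2 (ins F3 [F4] (dg c 40 8)) (dg c 37 8)) (dg c 34 8))
            (dg c 31 8)) a)
      (bt c 0)) (fun _ _ _ => true) t

noncomputable def nsk (t : Tr) : Bool :=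
  Tr.rec (motive := fun _ => Bool) (fun _ => true) (fun _ _ a b => an a b) (fun _ _ a => a) false t

noncomputable def mrg (t : Tr) : Tr → Tr :=
  Tr.rec (motive := fun _ => Tr → Tr) (fun c _ => .leaf c)
    (fun a b ia ib u => Tr.rec (motive := fun _ => Tr) (fun c => .leaf c)
      (fun a' b' _ _ => .split (ia a') (ib b')) (fun _ _ _ => .skip) (.split a b) u)
    (fun c a ia u => Tr.rec (motive := fun _ => Tr) (fun c => .leaf c)
      (fun _ _ _ _ => .skip) (fun c' a' _ => Bool.rec .skip (.cut c (ia a')) (Nat.beq c c'))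
      (.cut c a) u) (fun u => u) t

lemma run_leaf (g c : ℕ) (cs pend : List ℕ) (acc : ℕ) : run g (.leaf c) cs pend acc =
    frc (Nat.add (dg c 6 64) 8) fun st => frc (Nat.pow 2 (dg c 6 64)) fun M =>
      fin (go c st M (Nat.mod c 64) cs) := rfl

lemma run_split (g : ℕ) (tl tr : Tr) (cs rest : List ℕ) (F acc : ℕ) :
    run g (.split tl tr) cs (F :: rest) acc =
      an (Nat.ble (Nat.succ F) (Nat.pow 2 1726)) (frc (ng F) fun N => frc (Nat.add acc F) fun p =>
        frc (Nat.add acc N) fun q =>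
          an (run g tl (psh F p rest cs) rest p) (run g tr (psh N q rest cs) rest q)) := rfl

lemma run_cut (g c : ℕ) (t : Tr) (cs pend : List ℕ) (acc : ℕ) : run g (.cut c t) cs pend acc =
    Bool.rec
      (frc (f0 g c 0) fun F0 => frc (f0 g c 1) fun F1 => frc (f0 g c 2) fun F2 =>
        frc (f0 g c 3) fun F3 => frc (a0 c) fun a =>
          run g t cs (ins F0 (ins F1 (ins F2 [F3] (dg c 37 8)) (dg c 34 8)) (dg c 31 8)) a)
      (frc (f1 g c 0) fun F0 => frc (f1 g c 1) fun F1 => frc (f1 g c 2) fun F2 =>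
        frc (f1 g c 3) fun F3 => frc (f1 g c 4) fun F4 => frc (a1 c) fun a =>
          run g t cs (ins F0 (ins F1 (ins F2 (ins F3 [F4] (dg c 40 8)) (dg c 37 8)) (dg c 34 8))
            (dg c 31 8)) a)
      (bt c 0) := rfl

lemma run_mrg (g : ℕ) (t : Tr) : ∀ (u : Tr) (cs pend : List ℕ) (acc : ℕ),
    run g t cs pend acc = true → run g u cs pend acc = true → run g (mrg t u) cs pend acc = true := by
  induction t with
  | leaf c => exact fun u cs pend acc h _ => h
  | skip => exact fun u cs pend acc _ h => h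
  | split a b ia ib =>
    intro u cs pend acc h k
    cases u with
    | leaf c => exact k
    | skip => exact h
    | cut c t => rfl
    | split a' b' =>
      cases pend with
      | nil => exact Bool.noConfusion h
      | cons F rest =>
        show run g (.split (mrg a a') (mrg b b')) cs (F :: rest) acc = true
        rw [run_split, an_iff, frc_eq, frc_eq, frc_eq, an_iff] at h k ⊢
        exact ⟨h.1, ia _ _ _ _ h.2.1 k.2.1, ib _ _ _ _ h.2.2 k.2.2⟩
  | cut c a ia =>
    intro u cs pend acc h k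
    cases u with
    | leaf c => exact k
    | skip => exact h
    | split a' b' => rfl
    | cut c' a' =>
      show run g (Bool.rec .skip (.cut c (mrg a a')) (Nat.beq c c')) cs pend acc = true
      cases e : Nat.beq c c'
      · rfl
      · obtain rfl := Nat.eq_of_beq_eq_true e
        show run g (.cut c (mrg a a')) cs pend acc = true
        rw [run_cut] at h k ⊢
        generalize bt c 0 = q at h k ⊢
        cases q <;> simp only [frc_eq] at h k ⊢ <;> exact ia _ _ _ _ h k

lemma psh_V {F a : ℕ} {rest cs : List ℕ} {ta s : ℝ} (h : ∀ e ∈ cs, V x e) (hF : V x F)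
    (ha : RR x a ta) (hP : P x rest s) (h0 : 0 ≤ ta + s) : ∀ e ∈ psh F a rest cs, V x e := by
  cases hP with
  | nil =>
    intro e he
    rcases List.mem_cons.1 he with rfl | he
    · exact ⟨ta, by linarith, ha⟩
    rcases List.mem_cons.1 he with rfl | he
    · exact hF
    · exact h e he
  | cons _ _ =>
    intro e he
    rcases List.mem_cons.1 he with rfl | he
    · exact hF
    · exact h e he

lemma run_false (h : Sol l b) (hp : Pat g l) (t : Tr) : ∀ (cs pend : List ℕ) (acc : ℕ) (ta s : ℝ),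
    nsk t = true → (∀ e ∈ cs, V (xv l b) e) → RR (xv l b) acc ta → P (xv l b) pend s → 0 ≤ ta + s →
    run g t cs pend acc = true → False := by
  induction t with
  | skip => exact fun _ _ _ _ _ hn => Bool.noConfusion hn
  | leaf c =>
    intro cs pend acc ta s _ hc _ _ _ hr
    rw [run_leaf, frc_eq, frc_eq] at hr
    obtain ⟨t, t0, t1⟩ := go_V (x := xv l b) c _ _ _ cs hc
    have := fin_neg h.xv_nonneg (by rw [xv_k]; norm_num) t1 hr
    linarith
  | split tl tr il ir =>
    intro cs pend acc ta s hn hc ha hP h0 hr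
    have hn := (an_iff _ _).1 hn
    cases hP with
    | nil => exact Bool.noConfusion hr
    | @cons F t s r hF hP =>
      rw [run_split, an_iff, frc_eq, frc_eq, frc_eq, an_iff, Nat.ble_eq] at hr
      obtain ⟨h1, h2, h3⟩ := hr
      have hN := hF.neg h1
      rcases le_total 0 t with h4 | h4
      · rw [abs_of_nonneg h4] at h0
        exact il _ _ _ _ _ hn.1 (psh_V hc ⟨t, h4, hF⟩ (ha.add hF) hP (by linarith)) (ha.add hF) hP
          (by linarith) h2
      · rw [abs_of_nonpos h4] at h0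
        exact ir _ _ _ _ _ hn.2 (psh_V hc ⟨-t, by linarith, hN⟩ (ha.add hN) hP (by linarith))
          (ha.add hN) hP (by linarith) h3
  | cut c t it =>
    intro cs pend acc ta s hn hc _ _ _ hr
    rw [run_cut] at hr
    generalize bt c 0 = q at hr
    cases q
    · simp only [frc_eq] at hr
      refine it _ _ _ _ _ hn hc (a0_val c) (P.ins (f0_val hp c 0) (P.ins (f0_val hp c 1)
        (P.ins (f0_val hp c 2) (P.cons (f0_val hp c 3) P.nil) _) _) _) ?_ hr
      have := h.c0 (fun j => mg c j) ⟨dg c 43 5, Nat.mod_lt _ (by norm_num)⟩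
      rw [Fin.sum_univ_four] at this
      linarith
    · simp only [frc_eq] at hr
      refine it _ _ _ _ _ hn hc (a1_val c) (P.ins (f1_val hp c 0) (P.ins (f1_val hp c 1)
        (P.ins (f1_val hp c 2) (P.ins (f1_val hp c 3) (P.cons (f1_val hp c 4) P.nil) _) _) _) _) ?_ hr
      have := h.c1 (fun i => sg (bt c (26 + i)) * mg c i) (sg (bt c 30) * mg c 4)
        ⟨dg c 43 4, Nat.mod_lt _ (by norm_num)⟩
      rw [Fin.sum_univ_five] at this
      have e : ∀ (q : Bool) (n : ℕ), |sg q * (n : ℝ)| = n := by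
        intro q n; cases q <;> simp [sg]
      rw [e] at this
      linarith

noncomputable def lam (g c j : ℕ) : ℕ :=
  Bool.rec 0 (Nat.add (tm true (Nat.add 20 j)) (Nat.add (Nat.add (Nat.add (lt g (bt c 5) 0 j)
    (lt g (bt c 6) 1 j)) (lt g (bt c 7) 2 j)) (lt g (bt c 8) 3 j))) (bt c j)

noncomputable def cj (g c : ℕ) : ℕ :=
  Nat.add (Nat.mul 38 (tm true 25)) (Nat.add (Nat.add (Nat.add (Nat.add (lam g c 0) (lam g c 1))
    (lam g c 2)) (lam g c 3)) (lam g c 4))

lemma lam_val (hp : Pat g l) (c : ℕ) (j : Fin 5) : RR (xv l b) (lam g c j)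
    (if bt c j then b j + ∑ i : Fin 4, sg (bt c (5 + i)) * l i j else 0) := by
  unfold lam
  generalize bt c j = q
  cases q
  · exact RR.zero
  · have h := (tb_val (l := l) (b := b) true j).add ((((lt_val hp (bt c 5) 0 j).add
      (lt_val hp (bt c 6) 1 j)).add (lt_val hp (bt c 7) 2 j)).add (lt_val hp (bt c 8) 3 j))
    refine RR.cast h ?_
    simp [Fin.sum_univ_four, sg]

lemma cj_V (h : Sol l b) (hp : Pat g l) (c : ℕ) : V (xv l b) (cj g c) := by
  refine ⟨_, ?_, ((tk_val true).smul 38).add (((((lam_val hp c 0).add (lam_val hp c 1)).add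
    (lam_val hp c 2)).add (lam_val hp c 3)).add (lam_val hp c 4))⟩
  have := h.J (fun i => bt c (5 + i)) (fun j => bt c j)
  rw [Fin.sum_univ_five] at this
  simp only [sg, if_true] at this ⊢
  push_cast
  linarith

noncomputable def ec (g : ℕ) (s : Bool) (i : ℕ) : ℕ :=
  Nat.add (Nat.add (Nat.add (Nat.add (lt g s i 0) (lt g s i 1)) (lt g s i 2)) (lt g s i 3)) (lt g s i 4)

lemma ec_V (h : Sol l b) (hp : Pat g l) (s : Bool) (i : Fin 4) : V (xv l b) (ec g s i) := by
  refine ⟨_, ?_, ((((lt_val hp s i 0).add (lt_val hp s i 1)).add (lt_val hp s i 2)).add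
    (lt_val hp s i 3)).add (lt_val hp s i 4)⟩
  have := h.col i
  rw [Fin.sum_univ_five] at this
  apply le_of_eq
  linear_combination (-sg s) * this

noncomputable def eb (s s' : Bool) : ℕ :=
  Nat.add (Nat.add (Nat.add (Nat.add (Nat.add (tm s 20) (tm s 21)) (tm s 22)) (tm s 23)) (tm s 24))
    (Nat.mul 61 (tm s' 25))

lemma eb_V (h : Sol l b) (s : Bool) : V (xv l b) (eb s (!s)) := by
  refine ⟨_, ?_, (((((tb_val s 0).add (tb_val s 1)).add (tb_val s 2)).add
    (tb_val s 3)).add (tb_val s 4)).add ((tk_val (!s)).smul 61)⟩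
  have := h.tot
  rw [Fin.sum_univ_five] at this
  cases s <;> simp [sg] <;> linarith

noncomputable def cc (i : ℕ) : ℕ :=
  Nat.add (Nat.add (Nat.add (Nat.add (Nat.add (tm true (5 * i + 0)) (tm true (5 * i + 1)))
    (tm true (5 * i + 2))) (tm true (5 * i + 3))) (tm true (5 * i + 4))) (Nat.mul 61 (tm false 25))

lemma cc_V (h : Sol l b) (i : Fin 4) : V (xv l b) (cc i) := by
  refine ⟨_, ?_, (((((tp_val true i 0).add (tp_val true i 1)).add (tp_val true i 2)).add
    (tp_val true i 3)).add (tp_val true i 4)).add ((tk_val false).smul 61)⟩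
  have := h.cl i
  rw [Fin.sum_univ_five] at this
  simp [sg]; linarith

noncomputable def cr (j : ℕ) : ℕ :=
  Nat.add (Nat.add (Nat.add (Nat.add (Nat.add (tm true (5 * 0 + j)) (tm true (5 * 1 + j)))
    (tm true (5 * 2 + j))) (tm true (5 * 3 + j))) (tm true (20 + j))) (Nat.mul 61 (tm false 25))

lemma cr_V (h : Sol l b) (j : Fin 5) : V (xv l b) (cr j) := by
  refine ⟨_, ?_, (((((tp_val true 0 j).add (tp_val true 1 j)).add (tp_val true 2 j)).add
    (tp_val true 3 j)).add (tb_val true j)).add ((tk_val false).smul 61)⟩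
  have := h.row j
  rw [Fin.sum_univ_four] at this
  simp [sg]; linarith

noncomputable def tt (g : ℕ) (c : ℕ) : ℕ :=
  Nat.add (Nat.add (Nat.add (Nat.add (Nat.add (cj g (dg c 0 512)) (cj g (dg c 9 512)))
    (cj g (dg c 18 512))) (cj g (dg c 27 512))) (cj g (dg c 36 512))) (Nat.mul 2 (eb false true))

noncomputable def base (g c : ℕ) (cd : List ℕ) : List ℕ :=
  tt g c :: ec g true 0 :: ec g false 0 :: ec g true 1 :: ec g false 1 :: ec g true 2 ::
    ec g false 2 :: ec g true 3 :: ec g false 3 :: eb true false :: eb false true ::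
    cc 0 :: cc 1 :: cc 2 :: cc 3 :: cr 0 :: cr 1 :: cr 2 :: cr 3 :: cr 4 ::
    List.rec [] (fun a _ ih => cj g a :: ih) cd

lemma base_V (h : Sol l b) (hp : Pat g l) (c : ℕ) (cd : List ℕ) :
    ∀ e ∈ base g c cd, V (xv l b) e := by
  have h1 : ∀ e ∈ (List.rec [] (fun a _ ih => cj g a :: ih) cd : List ℕ), V (xv l b) e := by
    induction cd with
    | nil => simp
    | cons a tl ih =>
      intro e he
      rcases List.mem_cons.1 he with rfl | he
      · exact cj_V h hp a
      · exact ih e he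
  unfold base
  simp only [List.forall_mem_cons]
  exact ⟨(((((cj_V h hp _).add (cj_V h hp _)).add (cj_V h hp _)).add (cj_V h hp _)).add
    (cj_V h hp _)).add ((eb_V h false).smul 2), ec_V h hp true 0, ec_V h hp false 0,
    ec_V h hp true 1, ec_V h hp false 1, ec_V h hp true 2, ec_V h hp false 2, ec_V h hp true 3,
    ec_V h hp false 3, eb_V h true, eb_V h false, cc_V h 0, cc_V h 1, cc_V h 2, cc_V h 3,
    cr_V h 0, cr_V h 1, cr_V h 2, cr_V h 3, cr_V h 4, h1⟩

noncomputable def frl (cs : List ℕ) : (List ℕ → Bool) → Bool :=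
  List.rec (fun k => k []) (fun a _ ih k => frc a fun a' => ih fun tl => k (a' :: tl)) cs

lemma frl_eq (cs : List ℕ) : ∀ k, frl cs k = k cs := by
  induction cs with
  | nil => exact fun _ => rfl
  | cons a tl ih =>
    intro k
    show frc a (fun a' => frl tl fun tl => k (a' :: tl)) = _
    rw [frc_eq, ih]

noncomputable def ex (g i : ℕ) : ℕ := Nat.add (lt g true i 0) (lt g false (Nat.succ i) 0)

noncomputable def ck (g c : ℕ) (cd : List ℕ) (t : Tr) : Bool :=
  frl (base g c cd) fun cs => run g t cs [] 0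

noncomputable def cx (g c : ℕ) (cd : List ℕ) (t : Tr) : Bool :=
  frl (ex g 0 :: ex g 1 :: ex g 2 :: base g c cd) fun cs => run g t cs [] 0

lemma ck_mrg {c : ℕ} {cd : List ℕ} {t u : Tr} (h : ck g c cd t = true) (k : ck g c cd u = true) :
    ck g c cd (mrg t u) = true := by
  rw [ck, frl_eq] at *; exact run_mrg _ _ _ _ _ _ h k

lemma cx_mrg {c : ℕ} {cd : List ℕ} {t u : Tr} (h : cx g c cd t = true) (k : cx g c cd u = true) :
    cx g c cd (mrg t u) = true := by
  rw [cx, frl_eq] at *; exact run_mrg _ _ _ _ _ _ h k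

lemma ck_false {c : ℕ} {cd : List ℕ} {t : Tr} (k : ck g c cd t = true) (hn : nsk t = true)
    (h : Sol l b) (hp : Pat g l) : False := by
  rw [ck, frl_eq] at k
  exact run_false h hp t _ _ _ 0 0 hn (base_V h hp c cd) RR.zero P.nil (by simp) k

lemma cx_false {c : ℕ} {cd : List ℕ} {t : Tr} (k : cx g c cd t = true) (hn : nsk t = true)
    (h : Sol l b) (hp : Pat g l) (h0 : l 1 0 ≤ l 0 0) (h1 : l 2 0 ≤ l 1 0) (h2 : l 3 0 ≤ l 2 0) :
    False := by
  rw [cx, frl_eq] at k
  refine run_false h hp t _ _ _ 0 0 hn ?_ RR.zero P.nil (by simp) k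
  simp only [List.forall_mem_cons]
  refine ⟨⟨_, ?_, (lt_val hp true 0 0).add (lt_val hp false 1 0)⟩,
    ⟨_, ?_, (lt_val hp true 1 0).add (lt_val hp false 2 0)⟩,
    ⟨_, ?_, (lt_val hp true 2 0).add (lt_val hp false 3 0)⟩, base_V h hp c cd⟩ <;>
  simp [sg] <;> linarith

end Pool.Agent.H.MP_f310b7_an
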