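import Pool.Agent.H.MP_f310b7_an.B

namespace Pool.Agent.H.MP_f310b7_an

open Finset

lemma exists_inv (v : Fin 5 → Fin 4 → ℝ) (hv : AffineIndependent ℝ v) :
    ∃ (l : Fin 4 → Fin 5 → ℝ) (b : Fin 5 → ℝ), (∑ j, b j = 1) ∧ (∀ i, ∑ j, l i j = 0) ∧
      (∀ i k, ∑ j, (2 * v j i - 1) * l k j = if i = k then 1 else 0) ∧
      (∀ i, ∑ j, (2 * v j i - 1) * b j = 0) ∧
      (∀ j k, b j + ∑ i, l i j * (2 * v k i - 1) = if j = k then 1 else 0) := by
  obtain ⟨A, hA⟩ : ∃ A : Matrix (Fin 5) (Fin 5) ℝ,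
      A = Matrix.of fun p j => (Fin.cons 1 (fun i => 2 * v j i - 1) : Fin 5 → ℝ) p := ⟨_, rfl⟩
  have A0 : ∀ j, A 0 j = 1 := fun j => by simp [hA]
  have A1 : ∀ (i : Fin 4) j, A i.succ j = 2 * v j i - 1 := fun i j => by simp [hA]
  have hi : Function.Injective A.mulVec := by
    have : ∀ w, A.mulVec w = 0 → w = 0 := by
      intro w hw
      have h0 : ∑ j, w j = 0 := by
        have := congrFun hw 0
        simpa [Matrix.mulVec, dotProduct, A0] using this
      funext j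
      refine affineIndependent_iff.1 hv univ w h0 ?_ j (mem_univ j)
      funext i
      have := congrFun hw i.succ
      simp only [Matrix.mulVec, dotProduct, A1, Pi.zero_apply, Fin.sum_univ_five] at this
      simp only [Fin.sum_univ_five] at h0
      simp only [Fin.sum_univ_five, Pi.add_apply, Pi.smul_apply, smul_eq_mul, Pi.zero_apply]
      linear_combination (1 / 2) * this + (1 / 2) * h0
    intro x y hxy
    have h := this (x - y) (by rw [Matrix.mulVec_sub, hxy, sub_self])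
    exact sub_eq_zero.1 h
  obtain ⟨L, h1, h2⟩ := isUnit_iff_exists.1 (Matrix.mulVec_injective_iff_isUnit.1 hi)
  refine ⟨fun i j => L j i.succ, fun j => L j 0, ?_, fun i => ?_, fun i k => ?_, fun i => ?_,
    fun j k => ?_⟩
  · have := congrFun (congrFun h1 0) 0
    simpa [Matrix.mul_apply, A0] using this
  · have := congrFun (congrFun h1 0) i.succ
    simpa [Matrix.mul_apply, A0, Matrix.one_apply, (Fin.succ_ne_zero i).symm] using this
  · have := congrFun (congrFun h1 i.succ) k.succ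
    simpa [Matrix.mul_apply, A1, Matrix.one_apply] using this
  · have := congrFun (congrFun h1 i.succ) 0
    simpa [Matrix.mul_apply, A1, Matrix.one_apply] using this
  · have := congrFun (congrFun h2 j) k
    rw [Matrix.mul_apply, Fin.sum_univ_succ] at this
    simpa [A0, A1, Matrix.one_apply] using this

lemma exists_sign (v : Fin 5 → Fin 4 → ℝ) (hv : Function.Injective v) (w : Fin 5 → ℝ) :
    ∃ f : (Fin 4 → ℝ) → ℝ, Continuous f ∧ (∀ y, |f y| ≤ 1) ∧ ∀ j, f (v j) * w j = |w j| := by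
  obtain ⟨f, f0, f1, f2⟩ := exists_continuous_zero_one_of_isClosed
    (s := v '' {j | 0 ≤ w j}) (t := v '' {j | w j < 0})
    (Set.toFinite _).isClosed (Set.toFinite _).isClosed (by
      rw [Set.disjoint_image_iff hv, Set.disjoint_left]
      intro j h1 h2
      exact absurd (show 0 ≤ w j from h1) (not_le.2 h2))
  refine ⟨fun y => 1 - 2 * f y, by fun_prop, fun y => ?_, fun j => ?_⟩
  · have := f2 y
    rw [abs_le]; constructor <;> linarith [this.1, this.2]
  · rcases le_or_gt 0 (w j) with h | h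
    · have : f (v j) = 0 := f0 ⟨j, h, rfl⟩
      simp [this, abs_of_nonneg h]
    · have : f (v j) = 1 := f1 ⟨j, h, rfl⟩
      simp only [this, abs_of_neg h]; ring

lemma theta (H : ∀ (l : Fin 4 → Fin 5 → ℝ) (b : Fin 5 → ℝ), Sol l b → False)
    (v : Fin 5 → Fin 4 → ℝ) (hv : AffineIndependent ℝ v)
    (hc : ∀ j, v j ∈ Set.Icc (0 : Fin 4 → ℝ) 1) :
    137 / 61 ≤ sSup {t : ℝ | ∃ f : (Fin 4 → ℝ) → ℝ, ContinuousOn f (Set.Icc (0 : Fin 4 → ℝ) 1) ∧
      (∀ y ∈ Set.Icc (0 : Fin 4 → ℝ) 1, |f y| ≤ 1) ∧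
      ∃ x ∈ Set.Icc (0 : Fin 4 → ℝ) 1, ∃ l : Fin 5 → ℝ,
        ∑ j, l j = 1 ∧ ∑ j, l j • v j = x ∧ t = |∑ j, f (v j) * l j|} := by
  by_contra hlt
  rw [not_le] at hlt
  obtain ⟨l, b, e1, e2, e3, e4, e5⟩ := exists_inv v hv
  have ab : ∀ x ∈ Set.Icc (0 : Fin 4 → ℝ) 1, ∀ i, |2 * x i - 1| ≤ 1 := by
    intro x hx i
    have h1 : 0 ≤ x i := hx.1 i
    have h2 : x i ≤ 1 := hx.2 i
    rw [abs_le]; constructor <;> linarith
  have bd : BddAbove {t : ℝ | ∃ f : (Fin 4 → ℝ) → ℝ, ContinuousOn f (Set.Icc (0 : Fin 4 → ℝ) 1) ∧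
      (∀ y ∈ Set.Icc (0 : Fin 4 → ℝ) 1, |f y| ≤ 1) ∧
      ∃ x ∈ Set.Icc (0 : Fin 4 → ℝ) 1, ∃ l : Fin 5 → ℝ,
        ∑ j, l j = 1 ∧ ∑ j, l j • v j = x ∧ t = |∑ j, f (v j) * l j|} := by
    refine ⟨∑ j, (|b j| + ∑ i, |l i j|), ?_⟩
    rintro t ⟨f, -, f1, x, hx, w, w1, w2, rfl⟩
    refine (abs_sum_le_sum_abs _ _).trans (sum_le_sum fun j _ => ?_)
    have h1 : w j = b j + ∑ i, l i j * (2 * x i - 1) := by
      have h2 : ∀ i, 2 * x i - 1 = ∑ k, w k * (2 * v k i - 1) := by
        intro i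
        have := congrFun w2 i
        simp only [Fin.sum_univ_five, Pi.add_apply, Pi.smul_apply, smul_eq_mul] at this w1 ⊢
        linear_combination (-2) * this + w1
      have h3 : w j = ∑ k, w k * (b j + ∑ i, l i j * (2 * v k i - 1)) := by simp [e5]
      rw [h3]
      simp only [h2, mul_add, sum_add_distrib, ← sum_mul, w1, one_mul, mul_sum]
      rw [sum_comm]
      congr 1
      exact sum_congr rfl fun i _ => sum_congr rfl fun k _ => by ring
    rw [abs_mul]
    calc |f (v j)| * |w j| ≤ 1 * |w j| := by gcongr; exact f1 _ (hc j)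
      _ ≤ |b j| + |∑ i, l i j * (2 * x i - 1)| := by rw [one_mul, h1]; exact abs_add_le _ _
      _ ≤ _ := by
        gcongr
        refine (abs_sum_le_sum_abs _ _).trans (sum_le_sum fun i _ => ?_)
        rw [abs_mul]
        exact mul_le_of_le_one_right (abs_nonneg _) (ab x hx i)
  refine H l b ⟨e2, e1, fun u k => ?_, fun t r k => ?_, fun s => ?_⟩
  · have h1 : u k = ∑ j, u j * (b j + ∑ i, l i j * (2 * v k i - 1)) := by simp [e5]
    have h2 : ∑ j, u j * (b j + ∑ i, l i j * (2 * v k i - 1)) =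
        ∑ j, u j * b j + ∑ i, (∑ j, u j * l i j) * (2 * v k i - 1) := by
      simp only [mul_add, sum_add_distrib, mul_sum, sum_mul]
      rw [sum_comm]
      congr 1
      exact sum_congr rfl fun i _ => sum_congr rfl fun j _ => by ring
    have h3 : ∑ i, (∑ j, u j * l i j) * (2 * v k i - 1) ≤ ∑ i, |∑ j, u j * l i j| := by
      refine sum_le_sum fun i _ => (le_abs_self _).trans ?_
      rw [abs_mul]
      exact mul_le_of_le_one_right (abs_nonneg _) (ab _ (hc k) i)
    linarith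
  · have h1 : t k = ∑ j, (2 * v j k - 1) * (∑ i, t i * l i j + r * b j) := by
      have h2 : t k = ∑ i, t i * (∑ j, (2 * v j k - 1) * l i j) +
          r * ∑ j, (2 * v j k - 1) * b j := by simp [e3, e4]
      rw [h2]
      simp only [mul_add, sum_add_distrib, mul_sum]
      rw [sum_comm]
      congr 1
      · exact sum_congr rfl fun i _ => sum_congr rfl fun j _ => by ring
      · exact sum_congr rfl fun j _ => by ring
    rw [h1]
    refine (abs_sum_le_sum_abs _ _).trans (sum_le_sum fun j _ => ?_)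
    rw [abs_mul]
    exact mul_le_of_le_one_left (abs_nonneg _) (ab _ (hc j) k)
  · obtain ⟨f, f0, f1, f2⟩ := exists_sign v hv.injective fun j => b j + ∑ i, sg (s i) * l i j
    refine le_trans (le_csSup bd ⟨f, f0.continuousOn, fun y _ => f1 y, fun i => (1 + sg (s i)) / 2,
      ⟨fun i => ?_, fun i => ?_⟩, fun j => b j + ∑ i, sg (s i) * l i j, ?_, ?_, ?_⟩) hlt.le
    · beta_reduce; cases s i <;> simp [sg]
    · beta_reduce; cases s i <;> simp [sg]
    · rw [sum_add_distrib, e1, sum_comm]; simp [← mul_sum, e2]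
    · funext k
      have h1 : ∑ j, (b j + ∑ i, sg (s i) * l i j) = 1 := by
        rw [sum_add_distrib, e1, sum_comm]; simp [← mul_sum, e2]
      have h2 : ∑ j, (2 * v j k - 1) * (b j + ∑ i, sg (s i) * l i j) = sg (s k) := by
        have h3 : sg (s k) = ∑ j, (2 * v j k - 1) * b j +
            ∑ i, sg (s i) * (∑ j, (2 * v j k - 1) * l i j) := by simp [e3, e4]
        rw [h3]
        simp only [mul_add, sum_add_distrib, mul_sum]
        rw [sum_comm]
        congr 1
        exact sum_congr rfl fun i _ => sum_congr rfl fun j _ => by ring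
      rw [Finset.sum_apply]
      simp only [Pi.smul_apply, smul_eq_mul]
      generalize hw : (fun j => b j + ∑ i, sg (s i) * l i j) = w at h1 h2 ⊢
      have hw' : ∀ j, b j + ∑ i, sg (s i) * l i j = w j := fun j => congrFun hw j
      simp only [hw', Fin.sum_univ_five] at h1 h2 ⊢
      linear_combination (1 / 2) * h1 + (1 / 2) * h2
    · simp only [f2]
      rw [abs_of_nonneg (sum_nonneg fun _ _ => abs_nonneg _)]

noncomputable def v0 : Fin 5 → Fin 4 → ℝ :=
  ![![1, 1 / 2, 0, 1 / 2], ![33 / 43, 0, 1, 0], ![0, 1, 10 / 43, 0], ![33 / 43, 1, 1, 1],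
    ![0, 0, 10 / 43, 1]]

lemma v0_ind : AffineIndependent ℝ v0 := by
  rw [affineIndependent_iff_of_fintype]
  intro w h0 h1
  rw [Finset.weightedVSub_eq_linear_combination _ h0] at h1
  have a0 := congrFun h1 0
  have a1 := congrFun h1 1
  have a2 := congrFun h1 2
  have a3 := congrFun h1 3
  simp [v0, Fin.sum_univ_five] at h0 a0 a1 a2 a3
  intro j
  fin_cases j <;> simp <;> linarith

lemma v0_mem : ∀ j, v0 j ∈ Set.Icc (0 : Fin 4 → ℝ) 1 := by
  intro j
  constructor <;> intro i <;> fin_cases j <;> fin_cases i <;> simp [v0] <;> norm_num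

lemma v0_cov : Set.Icc (0 : Fin 4 → ℝ) 1 ⊆
    (AffineMap.homothety ((5 : ℝ)⁻¹ • ∑ j, v0 j) (14393 / 3498 : ℝ)) ''
      convexHull ℝ (Set.range v0) := by
  intro x hx
  have p0 : 0 ≤ x 0 := hx.1 0
  have p1 : 0 ≤ x 1 := hx.1 1
  have p2 : 0 ≤ x 2 := hx.1 2
  have p3 : 0 ≤ x 3 := hx.1 3
  have q0 : x 0 ≤ 1 := hx.2 0
  have q1 : x 1 ≤ 1 := hx.2 1
  have q2 : x 2 ≤ 1 := hx.2 2
  have q3 : x 3 ≤ 1 := hx.2 3
  refine ⟨∑ j, (![(2838 * x 0 - 2838 * x 2 + 2839) / 14393,
    (430 * x 0 - 1749 * x 1 + 1849 * x 2 - 1749 * x 3 + 3498) / 14393,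
    (-1849 * x 0 + 1749 * x 1 - 430 * x 2 - 1749 * x 3 + 4028) / 14393,
    (430 * x 0 + 1749 * x 1 + 1849 * x 2 + 1749 * x 3) / 14393,
    (-1849 * x 0 - 1749 * x 1 - 430 * x 2 + 1749 * x 3 + 4028) / 14393] : Fin 5 → ℝ) j • v0 j,
    (convex_convexHull ℝ _).sum_mem (fun j _ => ?_) ?_
      (fun j _ => subset_convexHull ℝ _ ⟨j, rfl⟩), ?_⟩
  · fin_cases j <;> simp <;> linarith
  · simp [Fin.sum_univ_five]; ring
  · rw [AffineMap.homothety_apply]
    funext i
    fin_cases i <;> simp [v0, Fin.sum_univ_five] <;> ring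

end Pool.Agent.H.MP_f310b7_an
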