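import Pool.Agent.H.MP_f310b7_an.B

namespace Pool.Agent.H.MP_f310b7_an

open Finset

variable {l : Fin 4 → Fin 5 → ℝ} {b : Fin 5 → ℝ}

lemma abs_sg (q : Bool) (y : ℝ) : |sg q * y| = |y| := by cases q <;> simp [sg]

lemma sg_beq (p q : Bool) : sg (p == q) = sg p * sg q := by cases p <;> cases q <;> simp [sg]

lemma Sol.tr (h : Sol l b) (π : Equiv.Perm (Fin 5)) (τ : Equiv.Perm (Fin 4)) (e : Fin 4 → Bool) :
    Sol (fun i j => sg (e i) * l (τ i) (π j)) (fun j => b (π j)) where
  col i := by rw [← mul_sum, Equiv.sum_comp π (l (τ i)), h.col, mul_zero]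
  tot := by rw [Equiv.sum_comp π b, h.tot]
  c0 u k := by
    have := h.c0 (fun j => u (π.symm j)) (π k)
    rw [← Equiv.sum_comp π, ← Equiv.sum_comp τ] at this
    simp only [Equiv.symm_apply_apply] at this
    refine this.trans (le_of_eq (sum_congr rfl fun i _ => ?_))
    rw [← Equiv.sum_comp π, ← abs_sg (e i), mul_sum]
    simp only [Equiv.symm_apply_apply]
    congr 1; exact sum_congr rfl fun j _ => by ring
  c1 t r k := by
    have := h.c1 (fun i => sg (e (τ.symm i)) * t (τ.symm i)) r (τ k)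
    rw [← Equiv.sum_comp π, abs_sg] at this
    simp only [Equiv.symm_apply_apply] at this
    refine this.trans (le_of_eq (sum_congr rfl fun j _ => ?_))
    rw [← Equiv.sum_comp τ]
    simp only [Equiv.symm_apply_apply]
    congr 2; exact sum_congr rfl fun i _ => by ring
  vx s := by
    have := h.vx (fun i => s (τ.symm i) == e (τ.symm i))
    rw [← Equiv.sum_comp π] at this
    refine le_trans (le_of_eq (sum_congr rfl fun j _ => ?_)) this
    rw [← Equiv.sum_comp τ (fun i => sg (s (τ.symm i) == e (τ.symm i)) * l i (π j))]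
    simp only [Equiv.symm_apply_apply, sg_beq, mul_assoc]

lemma star_bits : ∀ (i : Fin 4) (j : Fin 5),
    bt 566435 (5 * i + j) = decide (j = 0 ∨ j = i.succ) := by decide +kernel

lemma star_false (H : ∀ (l : Fin 4 → Fin 5 → ℝ) (b : Fin 5 → ℝ), Sol l b → Pat 566435 l →
    l 1 0 ≤ l 0 0 → l 2 0 ≤ l 1 0 → l 3 0 ≤ l 2 0 → False) (h : Sol l b) (hp : Pat 566435 l) :
    False := by
  have hm := Tuple.monotone_sort (fun i => -l i 0)
  generalize Tuple.sort (fun i => -l i 0) = τ at hm
  have h0 : Equiv.Perm.decomposeFin.symm (0, τ) (0 : Fin 5) = 0 := by simp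
  have h1 : ∀ k : Fin 4, Equiv.Perm.decomposeFin.symm ((0 : Fin 5), τ) k.succ = (τ k).succ := by
    intro k; simp
  generalize Equiv.Perm.decomposeFin.symm ((0 : Fin 5), τ) = π at h0 h1
  refine H _ _ (h.tr π τ fun _ => true) (fun i j => ?_) ?_ ?_ ?_
  · have := hp (τ i) (π j)
    rw [star_bits] at this ⊢
    have e : (π j = 0 ∨ π j = (τ i).succ) ↔ (j = 0 ∨ j = i.succ) := by
      rw [← h0, ← h1, π.injective.eq_iff, π.injective.eq_iff, h0]
    simpa [e, sg] using this
  · have := hm (show (0 : Fin 4) ≤ 1 by decide); simpa [sg, h0] using this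
  · have := hm (show (1 : Fin 4) ≤ 2 by decide); simpa [sg, h0] using this
  · have := hm (show (2 : Fin 4) ≤ 3 by decide); simpa [sg, h0] using this

noncomputable def al (n : ℕ) (f : ℕ → Bool) : Bool := Nat.rec true (fun k ih => an (f k) ih) n

lemma al_lt {n : ℕ} {f : ℕ → Bool} (h : al n f = true) : ∀ k < n, f k = true := by
  induction n with
  | zero => simp
  | succ n ih =>
    have h := (an_iff _ _).1 h
    intro k hk
    rcases Nat.lt_succ_iff_lt_or_eq.1 hk with h1 | rfl
    · exact ih h.2 k h1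
    · exact h.1

noncomputable def pj (e j : ℕ) : ℕ := Nat.mod (dg e (Nat.mul 3 j) 8) 5

noncomputable def tj (e i : ℕ) : ℕ := dg e (Nat.add 15 (Nat.mul 2 i)) 4

noncomputable def bq (p q : Bool) : Bool := Bool.rec (Bool.rec true false q) q p

lemma bq_eq (p q : Bool) : bq p q = (p == q) := by cases p <;> cases q <;> rfl

noncomputable def nt (p : Bool) : Bool := Bool.rec true false p

noncomputable def chk (gs : List ℕ) (a0 e : ℕ) : Bool :=
  frc a0 fun a => List.rec false (fun g _ _ =>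
    an (al 5 fun j => al j fun k => nt (Nat.beq (pj e j) (pj e k)))
      (an (al 4 fun j => al j fun k => nt (Nat.beq (tj e j) (tj e k)))
        (al 4 fun i => frc (dg a (Nat.mul 5 (tj e i)) 32) fun c => al 5 fun j =>
          bq (bt g (Nat.add (Nat.mul 5 i) j)) (bq (bt e (Nat.add 23 i)) (bt c (pj e j))))))
    (drp (dg e 27 128) gs)

lemma drp_mem (cs : List ℕ) (n : ℕ) : ∀ e ∈ drp n cs, e ∈ cs := by
  induction n with
  | zero => exact fun _ h => h
  | succ n ih =>
    show ∀ e ∈ (List.rec [] (fun _ tl _ => tl) (drp n cs) : List ℕ), e ∈ cs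
    generalize drp n cs = r at ih ⊢
    cases r with
    | nil => simp
    | cons a tl => exact fun e he => ih e (List.mem_cons_of_mem _ he)

lemma perm_of {n : ℕ} (f : ℕ → ℕ) (hf : ∀ j, f j < n)
    (h : (al n fun j => al j fun k => nt (Nat.beq (f j) (f k))) = true) :
    ∃ π : Equiv.Perm (Fin n), ∀ j, (π j : ℕ) = f j := by
  have h1 : ∀ j k : Fin n, k < j → f j ≠ f k := by
    intro j k hk e
    have := al_lt (al_lt h j j.2) k hk
    rw [e, Nat.beq_refl] at this
    exact Bool.noConfusion this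
  have h2 : Function.Injective (fun j : Fin n => (⟨f j, hf j⟩ : Fin n)) := by
    intro j k e
    have e := congrArg Fin.val e
    rcases lt_trichotomy j k with h3 | h3 | h3
    · exact absurd e.symm (h1 k j h3)
    · exact h3
    · exact absurd e (h1 j k h3)
  exact ⟨Equiv.ofBijective _ (Finite.injective_iff_bijective.1 h2), fun j => rfl⟩

lemma chk_false {gs : List ℕ} {a e : ℕ}
    (H : ∀ g ∈ gs, ∀ (l : Fin 4 → Fin 5 → ℝ) (b : Fin 5 → ℝ), Sol l b → Pat g l → False)
    (hc : chk gs a e = true) (h : Sol l b)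
    (hp : ∀ (i : Fin 4) (j : Fin 5), 0 ≤ sg (bt (dg a (5 * i) 32) j) * l i j) : False := by
  rw [chk, frc_eq] at hc
  have hm := drp_mem gs (dg e 27 128)
  generalize drp (dg e 27 128) gs = r at hc hm
  cases r with
  | nil => exact Bool.noConfusion hc
  | cons g tl =>
    have hc := (an_iff _ _).1 hc
    obtain ⟨c1, hc⟩ := hc
    obtain ⟨c2, c3⟩ := (an_iff _ _).1 hc
    obtain ⟨π, hπ⟩ := perm_of (pj e) (fun j => Nat.mod_lt _ (by norm_num)) c1
    obtain ⟨τ, hτ⟩ := perm_of (tj e) (fun j => Nat.mod_lt _ (by norm_num)) c2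
    refine H g (hm g List.mem_cons_self) _ _ (h.tr π τ fun i => bt e (23 + i)) fun i j => ?_
    have h1 := al_lt c3 i i.2
    rw [frc_eq] at h1
    have h2 := al_lt h1 j j.2
    rw [bq_eq, bq_eq, beq_iff_eq] at h2
    have h3 := hp (τ i) (π j)
    rw [hπ, hτ] at h3
    have h4 : bt g (5 * i + j) = (bt e (23 + i) == bt (dg a (5 * tj e i) 32) (pj e j)) := h2
    rw [h4, sg_beq]
    generalize bt (dg a (5 * tj e i) 32) (pj e j) = q at h3 ⊢
    generalize bt e (23 + i) = p
    cases p <;> cases q <;> simpa [sg] using h3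

noncomputable def zp (gs : List ℕ) (as : List ℕ) : List ℕ → Bool :=
  List.rec (fun _ => true) (fun a _ ih es =>
    List.rec false (fun e tl _ => an (chk gs a e) (ih tl)) es) as

lemma zp_ex (gs as : List ℕ) : ∀ es, zp gs as es = true → ∀ a ∈ as, ∃ e, chk gs a e = true := by
  induction as with
  | nil => simp
  | cons a tl ih =>
    intro es h
    cases es with
    | nil => exact Bool.noConfusion h
    | cons e es =>
      have h := (an_iff _ _).1 h
      intro a' ha
      rcases List.mem_cons.1 ha with rfl | ha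
      · exact ⟨e, h.1⟩
      · exact ih es h.2 a' ha

def enm : List ℕ := (List.range' 0 16).flatMap fun a => (List.range' a (16 - a)).flatMap fun b =>
  (List.range' b (16 - b)).flatMap fun c => (List.range' c (16 - c)).map fun d =>
    a + 32 * b + 1024 * c + 32768 * d

lemma code_ex : ∀ p q r s : Bool, ∃ n < 16, bt n 0 = p ∧ bt n 1 = q ∧ bt n 2 = r ∧ bt n 3 = s ∧
    bt n 4 = false := by decide +kernel

lemma sg_dec (y : ℝ) : 0 ≤ sg (decide (0 ≤ y)) * y := by
  by_cases h : 0 ≤ y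
  · simpa [sg, h]
  · simpa [sg, h] using (not_le.1 h).le

lemma all_false {gs es : List ℕ}
    (H : ∀ g ∈ gs, ∀ (l : Fin 4 → Fin 5 → ℝ) (b : Fin 5 → ℝ), Sol l b → Pat g l → False)
    (hz : zp gs enm es = true) (h : Sol l b) : False := by
  have h1 := h.tr 1 1 fun i => decide (l i 4 ≤ 0)
  obtain ⟨m, hm⟩ : ∃ m : Fin 4 → Fin 5 → ℝ, m = fun i j => sg (decide (l i 4 ≤ 0)) *
    l ((1 : Equiv.Perm (Fin 4)) i) ((1 : Equiv.Perm (Fin 5)) j) := ⟨_, rfl⟩
  rw [← hm] at h1
  have h2 : ∀ i, m i 4 ≤ 0 := by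
    intro i; rw [hm]
    by_cases h3 : l i 4 ≤ 0
    · simpa [sg, h3]
    · simpa [sg, h3] using (not_le.1 h3).le
  have h3 : ∀ i, ∃ n < 16, ∀ j : Fin 5, 0 ≤ sg (bt n j) * m i j := by
    intro i
    obtain ⟨n, n1, n2, n3, n4, n5, n6⟩ := code_ex (decide (0 ≤ m i 0)) (decide (0 ≤ m i 1))
      (decide (0 ≤ m i 2)) (decide (0 ≤ m i 3))
    refine ⟨n, n1, fun j => ?_⟩
    fin_cases j
    · have := sg_dec (m i 0); rw [← n2] at this; exact this
    · have := sg_dec (m i 1); rw [← n3] at this; exact this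
    · have := sg_dec (m i 2); rw [← n4] at this; exact this
    · have := sg_dec (m i 3); rw [← n5] at this; exact this
    · have : 0 ≤ sg (bt n 4) * m i 4 := by rw [n6]; simpa [sg] using h2 i
      exact this
  choose c c1 c2 using h3
  have hs := Tuple.monotone_sort c
  generalize Tuple.sort c = τ at hs
  have s1 : c (τ 0) ≤ c (τ 1) := hs (show (0 : Fin 4) ≤ 1 by decide)
  have s2 : c (τ 1) ≤ c (τ 2) := hs (show (1 : Fin 4) ≤ 2 by decide)
  have s3 : c (τ 2) ≤ c (τ 3) := hs (show (2 : Fin 4) ≤ 3 by decide)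
  have t0 := c1 (τ 0); have t1 := c1 (τ 1); have t2 := c1 (τ 2); have t3 := c1 (τ 3)
  obtain ⟨e, he⟩ := zp_ex gs enm es hz
    (c (τ 0) + 32 * c (τ 1) + 1024 * c (τ 2) + 32768 * c (τ 3)) (by
      simp only [enm, List.mem_flatMap, List.mem_map, List.mem_range'_1]
      exact ⟨c (τ 0), by omega, c (τ 1), by omega, c (τ 2), by omega, c (τ 3), by omega, rfl⟩)
  refine chk_false H he (h1.tr 1 τ fun _ => true) fun i j => ?_
  have e1 : dg (c (τ 0) + 32 * c (τ 1) + 1024 * c (τ 2) + 32768 * c (τ 3)) (5 * i) 32 = c (τ i) := by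
    show (_ >>> _) % 32 = _
    rw [Nat.shiftRight_eq_div_pow]
    fin_cases i <;> simp <;> omega
  rw [e1]
  simpa [sg] using c2 (τ i) j

attribute [local irreducible] ck nsk

noncomputable def alk (q : List (ℕ × ℕ × List ℕ × Tr)) : Bool :=
  List.rec true (fun a _ ih => an (an (ck a.1 a.2.1 a.2.2.1 a.2.2.2) (nsk a.2.2.2)) ih) q

noncomputable def fs (q : List (ℕ × ℕ × List ℕ × Tr)) : List ℕ :=
  List.rec [] (fun a _ ih => a.1 :: ih) q

lemma alk_false (q : List (ℕ × ℕ × List ℕ × Tr)) (h : alk q = true) :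
    ∀ g ∈ fs q, ∀ (l : Fin 4 → Fin 5 → ℝ) (b : Fin 5 → ℝ), Sol l b → Pat g l → False := by
  induction q with
  | nil => intro g hg; exact absurd hg List.not_mem_nil
  | cons a tl ih =>
    have e : alk (a :: tl) = an (an (ck a.1 a.2.1 a.2.2.1 a.2.2.2) (nsk a.2.2.2)) (alk tl) := rfl
    rw [e, an_iff, an_iff] at h
    have h1 := h.1
    intro g hg
    rcases List.mem_cons.1 hg with rfl | hg
    · exact fun l b => ck_false h1.1 h1.2
    · exact ih h.2 g hg

end Pool.Agent.H.MP_f310b7_an
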